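import Pool.Agent.Lib_helper56.RP.Pin3
import Pool.Agent.Lib_helper90.MOD.LayZ

/-!
# `pin_lim`
-/

set_option autoImplicit false

open scoped BigOperators ComplexOrder Kronecker MatrixOrder Topology
open MeasureTheory Set Matrix Filter

namespace Pool.Agent.Lib_helper56.RP

open Pool.Agent.RC Pool.Agent.RC.INE

variable {ι : Type} [Fintype ι] [DecidableEq ι] {a : ι → ℝ} {D : Matrix ι ι ℂ}

theorem trF_zero_of {p : ℝ} (hp : 0 < p) {M : Matrix ι ι ℂ} (hM : M.IsHermitian)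
    (h : ((0 : ℂ) • (1 : Matrix ι ι ℂ) - M).PosSemidef) : trF (pp p) M = 0 := by
  unfold trF
  rw [dif_pos hM]
  refine Finset.sum_eq_zero fun i _ => pp_neg_eq hp ?_
  exact eig_le hM (R := 0) (by simpa using h) i

theorem pair_zero {p : ℝ} (hp : 0 < p) (h : IsPair (dg a) D) (hD : D.IsHermitian) {R : ℝ}
    (hR : 0 ≤ R) (hR1 : ((R : ℂ) • (1 : Matrix ι ι ℂ) - D).PosSemidef)
    (hR2 : ((R : ℂ) • (1 : Matrix ι ι ℂ) + D).PosSemidef) {x y v : ℝ}
    (hxy : |x| * R + y ≤ 0) (hv : 0 ≤ v) :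
    trF (pp p) ((x : ℂ) • D + (y : ℂ) • (1 : Matrix ι ι ℂ) - (v : ℂ) • dg a) = 0 := by
  refine trF_zero_of hp ((herm_aff hD x y).sub (herm_real_smul h.hermA v)) ?_
  have q1 := psdR (S := 0) h hR hR1 hR2 hxy
  have := q1.add (psd_smul' h.pos.posSemidef hv)
  rw [Complex.ofReal_zero] at this
  rwa [show (0 : ℂ) • (1 : Matrix ι ι ℂ) - ((x : ℂ) • D + (y : ℂ) • (1 : Matrix ι ι ℂ)) +
      (v : ℂ) • dg a = (0 : ℂ) • (1 : Matrix ι ι ℂ) -
      ((x : ℂ) • D + (y : ℂ) • (1 : Matrix ι ι ℂ) - (v : ℂ) • dg a) by abel] at this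

theorem eig_abs_le (hD : D.IsHermitian) {R : ℝ}
    (hR1 : ((R : ℂ) • (1 : Matrix ι ι ℂ) - D).PosSemidef)
    (hR2 : ((R : ℂ) • (1 : Matrix ι ι ℂ) + D).PosSemidef) (i : ι) :
    |hD.eigenvalues i| ≤ R := by
  have e1 := eig_le hD hR1 i
  have this := pin_nonneg hD hR2 i
  rw [pin_add, pin_self] at this
  have e3 : pin hD ((R : ℂ) • (1 : Matrix ι ι ℂ)) i = R := by
    unfold pin
    rw [Matrix.mul_smul, Matrix.mul_one, Matrix.smul_mul,
      (Pool.Agent.Lib_helper28.KS.spec hD).1]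
    simp
  rw [e3] at this
  exact abs_le.2 ⟨by linarith, e1⟩

/-- both `tau`s vanish when `v t` is large -/
theorem both_zero {p : ℝ} (hp : 0 < p) (h : IsPair (dg a) D) (hD : D.IsHermitian) {R : ℝ}
    (hR : 0 ≤ R) (hR1 : ((R : ℂ) • (1 : Matrix ι ι ℂ) - D).PosSemidef)
    (hR2 : ((R : ℂ) • (1 : Matrix ι ι ℂ) + D).PosSemidef) {t v : ℝ} (hv : 0 ≤ v)
    (ht : (1 + v) * R ≤ v * t) :
    tau p (dg fun i => a i + t) D v = 0 ∧
      tau p (dg fun i => pin hD (dg a) i + t) (dg hD.eigenvalues) v = 0 := by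
  constructor
  · unfold tau
    rw [dg_shift, mem1, mem2, pair_zero hp h hD hR hR1 hR2 _ hv,
      pair_zero hp h hD hR hR1 hR2 _ hv, add_zero]
    · rw [abs_neg, abs_of_nonneg (by linarith)]; linarith
    · rw [abs_of_nonneg (by linarith)]; linarith
  · rw [tau_dg]
    have hc : ∀ i, 0 ≤ v * pin hD (dg a) i := fun i =>
      mul_nonneg hv (pin_nonneg hD h.pos.posSemidef i)
    have he : ∀ i, |(1 + v) * hD.eigenvalues i| ≤ (1 + v) * R := fun i => by
      rw [abs_mul, abs_of_nonneg (by linarith : (0 : ℝ) ≤ 1 + v)]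
      exact mul_le_mul_of_nonneg_left (eig_abs_le hD hR1 hR2 i) (by linarith)
    rw [Finset.sum_eq_zero, Finset.sum_eq_zero, add_zero]
    · intro i _
      refine pp_neg_eq hp ?_
      have h1 := (abs_le.1 (he i)).1
      have := hc i
      have e : -(1 + v) * hD.eigenvalues i = -((1 + v) * hD.eigenvalues i) := by ring
      rw [e]
      linarith
    · intro i _
      refine pp_neg_eq hp ?_
      have h1 := (abs_le.1 (he i)).2
      have := hc i
      linarith

theorem eta_eq_of_bound {p : ℝ} (hp : 1 < p) {A₁ D₁ A₂ D₂ : Matrix ι ι ℂ} (h₁ : IsPair A₁ D₁)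
    (h₂ : IsPair A₂ D₂) {K : ℝ} (hb : ∀ v : ℝ, 0 ≤ v → v ≤ 1 →
      |tau p A₁ D₁ v - tau p A₂ D₂ v| ≤ K * v ^ 2) : eta p A₁ D₁ 0 = eta p A₂ D₂ 0 := by
  have hd := ((hasDerivAt_tau hp h₁ 0).sub (hasDerivAt_tau hp h₂ 0)).hasDerivWithinAt (s := Ioi 0)
  have h0 : tau p A₁ D₁ 0 - tau p A₂ D₂ 0 = 0 := by
    have := hb 0 le_rfl zero_le_one
    rw [zero_pow two_ne_zero, mul_zero] at this
    exact abs_eq_zero.1 (le_antisymm this (abs_nonneg _))
  have hz : HasDerivWithinAt (fun v => tau p A₁ D₁ v - tau p A₂ D₂ v) 0 (Ioi 0) 0 := by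
    rw [hasDerivWithinAt_iff_tendsto_slope' (by simp)]
    have hK : Tendsto (fun v : ℝ => |K| * v) (𝓝[>] 0) (𝓝 0) := by
      have : Tendsto (fun v : ℝ => |K| * v) (𝓝 0) (𝓝 (|K| * 0)) :=
        (continuous_const.mul continuous_id).tendsto 0
      rw [mul_zero] at this
      exact this.mono_left nhdsWithin_le_nhds
    refine squeeze_zero_norm' ?_ hK
    filter_upwards [self_mem_nhdsWithin, Ioo_mem_nhdsGT (zero_lt_one (α := ℝ))] with v hv hv1
    have hv0 : (0 : ℝ) < v := hv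
    rw [slope_def_field, h0, sub_zero, sub_zero, norm_div, Real.norm_eq_abs, Real.norm_eq_abs,
      abs_of_pos hv0, div_le_iff₀ hv0]
    calc _ ≤ K * v ^ 2 := hb v hv0.le hv1.2.le
      _ ≤ |K| * v ^ 2 := mul_le_mul_of_nonneg_right (le_abs_self _) (sq_nonneg _)
      _ = _ := by ring
  have hu := (uniqueDiffWithinAt_Ioi (0 : ℝ)).eq_deriv _ hd hz
  linarith

theorem pin_lim {p : ℝ} (h5 : 5 < p) (h6 : p < 6) (a : ι → ℝ) (ha : ∀ i, 0 < a i)
    {D : Matrix ι ι ℂ} (h : IsPair (dg a) D) : ∃ c d : ι → ℝ, (∀ i, 0 < c i) ∧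
    (∀ i, |d i| ≤ c i) ∧ tau p (dg a) D 0 = tau p (dg c) (dg d) 0 ∧
    (∀ t, 0 ≤ t → eta p (dg fun i => a i + t) D 0 = eta p (dg fun i => c i + t) (dg d) 0) ∧
    Tendsto (fun t => ∫ v in Ioi (0 : ℝ), v ^ (3 - p) * (((1 + v) ^ 3)⁻¹ * (1 + 2 * v)⁻¹) *
      (tau p (dg fun i => a i + t) D v - tau p (dg fun i => c i + t) (dg d) v)) atTop (𝓝 0) := by
  have hD := h.hermD
  obtain ⟨R, hR, hR1, hR2⟩ := exists_R ha h
  obtain ⟨K, hK, hb⟩ := pin_bound (p := p) (by linarith) ha h hD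
  have hc : ∀ i, 0 < pin hD (dg a) i := fun i => pin_pos hD h.pos i
  have hd : ∀ i, |hD.eigenvalues i| ≤ pin hD (dg a) i := fun i => abs_eig_le h hD i
  have hpr : ∀ t : ℝ, 0 ≤ t → IsPair (dg fun i => pin hD (dg a) i + t) (dg hD.eigenvalues) :=
    fun t ht => isPair_dg (fun i => by have := hc i; linarith) fun i => by
      have := hd i; linarith
  refine ⟨fun i => pin hD (dg a) i, hD.eigenvalues, hc, hd, ?_, fun t ht => ?_, ?_⟩
  · have := hb 0 0 le_rfl le_rfl zero_le_one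
    simp only [add_zero, zero_pow two_ne_zero, mul_zero] at this
    exact sub_eq_zero.1 (abs_eq_zero.1 (le_antisymm this (abs_nonneg _)))
  · exact eta_eq_of_bound (by linarith) (isPair_shift h ht) (hpr t ht)
      (fun v hv hv1 => hb t v ht hv hv1)
  · have hlim := tendsto_integral_filter_of_dominated_convergence
      (μ := volume.restrict (Ioi (0 : ℝ))) (l := atTop)
      (F := fun t v => v ^ (3 - p) * (((1 + v) ^ 3)⁻¹ * (1 + 2 * v)⁻¹) *
        (tau p (dg fun i => a i + t) D v -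
          tau p (dg fun i => pin hD (dg a) i + t) (dg hD.eigenvalues) v))
      (f := fun _ => (0 : ℝ))
      (fun v => K * (v ^ (3 - p) * (((1 + v) ^ 3)⁻¹ * (1 + 2 * v)⁻¹) * v ^ 2)) ?_ ?_
      ((int_w2 h5 h6).const_mul K) ?_
    · simpa using hlim
    · filter_upwards [eventually_ge_atTop (0 : ℝ)] with t ht
      have m1 := measurable_tau (p := p) (by linarith) (isPair_shift h ht)
      have m2 := measurable_tau (p := p) (by linarith) (hpr t ht)
      have : Measurable (fun v : ℝ => v ^ (3 - p) * (((1 + v) ^ 3)⁻¹ * (1 + 2 * v)⁻¹) *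
        (tau p (dg fun i => a i + t) D v -
          tau p (dg fun i => pin hD (dg a) i + t) (dg hD.eigenvalues) v)) := by
        fun_prop
      exact this.aestronglyMeasurable
    · filter_upwards [eventually_ge_atTop (2 * R), eventually_ge_atTop (0 : ℝ)] with t ht ht0
      refine (ae_restrict_iff' measurableSet_Ioi).2 (Eventually.of_forall fun v hv => ?_)
      have hv0 : (0 : ℝ) < v := hv
      have hw : 0 ≤ v ^ (3 - p) * (((1 + v) ^ 3)⁻¹ * (1 + 2 * v)⁻¹) := by positivity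
      rw [norm_mul, Real.norm_eq_abs, abs_of_nonneg hw, Real.norm_eq_abs]
      rcases le_total v 1 with hv1 | hv1
      · calc _ ≤ v ^ (3 - p) * (((1 + v) ^ 3)⁻¹ * (1 + 2 * v)⁻¹) * (K * v ^ 2) :=
            mul_le_mul_of_nonneg_left (hb t v ht0 hv0.le hv1) hw
          _ = _ := by ring
      · obtain ⟨e1, e2⟩ := both_zero (p := p) (by linarith) h hD hR hR1 hR2 (t := t) (v := v)
          hv0.le (by nlinarith)
        rw [e1, e2, sub_zero, abs_zero, mul_zero]
        positivity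
    · refine (ae_restrict_iff' measurableSet_Ioi).2 (Eventually.of_forall fun v hv => ?_)
      have hv0 : (0 : ℝ) < v := hv
      refine tendsto_const_nhds.congr' ?_
      filter_upwards [eventually_ge_atTop ((1 + v) * R / v)] with t ht
      rw [div_le_iff₀ hv0] at ht
      obtain ⟨e1, e2⟩ := both_zero (p := p) (by linarith) h hD hR hR1 hR2 (t := t) (v := v)
        hv0.le (by linarith)
      rw [e1, e2, sub_zero, mul_zero]

end Pool.Agent.Lib_helper56.RP
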