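import Pool.Agent.Lib_helper56.RP.Pin2

/-!
# Integrability of the second order remainder of `tau`
-/

set_option autoImplicit false

open scoped BigOperators ComplexOrder Kronecker MatrixOrder Topology
open MeasureTheory Set Matrix Filter

namespace Pool.Agent.Lib_helper56.RP

open Pool.Agent.RC Pool.Agent.RC.INE

variable {ι : Type} [Fintype ι] [DecidableEq ι]

theorem psd_smul' {M : Matrix ι ι ℂ} (hM : M.PosSemidef) {t : ℝ} (ht : 0 ≤ t) :
    ((t : ℂ) • M).PosSemidef := by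
  have : (0 : ℂ) ≤ (t : ℂ) := by exact_mod_cast ht
  exact hM.smul this

theorem psd_one' {t : ℝ} (ht : 0 ≤ t) : ((t : ℂ) • (1 : Matrix ι ι ℂ)).PosSemidef :=
  psd_smul' Matrix.PosSemidef.one ht

theorem sum_sq_smul (A : Matrix ι ι ℂ) (v : ℝ) :
    ∑ i, ∑ j, ‖((v : ℂ) • A) i j‖ ^ 2 = v ^ 2 * ∑ i, ∑ j, ‖A i j‖ ^ 2 := by
  simp only [Finset.mul_sum]
  refine Finset.sum_congr rfl fun i _ => Finset.sum_congr rfl fun j _ => ?_
  rw [Matrix.smul_apply, smul_eq_mul, norm_mul, Complex.norm_real, mul_pow, Real.norm_eq_abs,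
    sq_abs]

/-- `|tau v - tau 0 + eta 0 v| ≤ K v ^ 2` for all `v ≥ 0` -/
theorem rr_bound {p : ℝ} (hp : 2 ≤ p) {a : ι → ℝ} (ha : ∀ i, 0 < a i) {D : Matrix ι ι ℂ}
    (h : IsPair (dg a) D) : ∃ K : ℝ, 0 ≤ K ∧ ∀ v : ℝ, 0 ≤ v →
      |tau p (dg a) D v - tau p (dg a) D 0 + eta p (dg a) D 0 * v| ≤ K * v ^ 2 := by
  obtain ⟨R, hR, hR1, hR2⟩ := exists_R ha h
  have hD := h.hermD
  have hA := h.hermA
  refine ⟨p * (p - 1) * R ^ (p - 2) * (∑ i, ∑ j, ‖(dg a - D) i j‖ ^ 2 +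
    ∑ i, ∑ j, ‖(dg a + D) i j‖ ^ 2), ?_, fun v hv => ?_⟩
  · exact mul_nonneg (mul_nonneg (mul_nonneg (by linarith) (by linarith))
      (Real.rpow_nonneg hR _)) (by positivity)
  have k1 := lip hp hD (herm_real_smul (hA.sub hD) v) hR hR1 (by
    have := hR1.add (psd_smul' h.sub hv)
    rwa [show (R : ℂ) • (1 : Matrix ι ι ℂ) - D + (v : ℂ) • (dg a - D) =
      (R : ℂ) • (1 : Matrix ι ι ℂ) - (D - (v : ℂ) • (dg a - D)) by abel] at this)
  have k2 := lip hp hD.neg (herm_real_smul (hA.add hD) v) hR (by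
    rwa [sub_neg_eq_add]) (by
    have := hR2.add (psd_smul' h.add hv)
    rwa [show (R : ℂ) • (1 : Matrix ι ι ℂ) + D + (v : ℂ) • (dg a + D) =
      (R : ℂ) • (1 : Matrix ι ι ℂ) - (-D - (v : ℂ) • (dg a + D)) by abel] at this)
  rw [sum_sq_smul, Matrix.mul_smul, Matrix.trace_smul, smul_eq_mul, Complex.re_ofReal_mul] at k1 k2
  have e0 : tau p (dg a) D 0 = trF (pp p) D + trF (pp p) (-D) := tau_zero p _ _
  have e1 : eta p (dg a) D 0 = p * (((cfc (gp p) D * (dg a - D)).trace).re +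
      ((cfc (gp p) (-D) * (dg a + D)).trace).re) := by
    unfold eta
    simp
  rw [e0, e1]
  unfold tau
  have e2 : trF (pp p) (D - (v : ℂ) • (dg a - D)) + trF (pp p) (-D - (v : ℂ) • (dg a + D)) -
      (trF (pp p) D + trF (pp p) (-D)) + p * (((cfc (gp p) D * (dg a - D)).trace).re +
      ((cfc (gp p) (-D) * (dg a + D)).trace).re) * v =
      (trF (pp p) (D - (v : ℂ) • (dg a - D)) - trF (pp p) D +
        p * (v * ((cfc (gp p) D * (dg a - D)).trace).re)) +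
      (trF (pp p) (-D - (v : ℂ) • (dg a + D)) - trF (pp p) (-D) +
        p * (v * ((cfc (gp p) (-D) * (dg a + D)).trace).re)) := by ring
  rw [e2]
  calc _ ≤ _ := abs_add_le _ _
    _ ≤ _ := add_le_add k1 k2
    _ = _ := by ring

theorem int_rr {p : ℝ} (h5 : 5 < p) (h6 : p < 6) {a : ι → ℝ} (ha : ∀ i, 0 < a i)
    {D : Matrix ι ι ℂ} (h : IsPair (dg a) D) :
    IntegrableOn (fun v : ℝ => v ^ (3 - p) * (((1 + v) ^ 3)⁻¹ * (1 + 2 * v)⁻¹) *
      (tau p (dg a) D v - tau p (dg a) D 0 + eta p (dg a) D 0 * v)) (Ioi 0) := by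
  obtain ⟨K, hK, hb⟩ := rr_bound (p := p) (by linarith) ha h
  have hm : Measurable (fun v : ℝ => v ^ (3 - p) * (((1 + v) ^ 3)⁻¹ * (1 + 2 * v)⁻¹) *
      (tau p (dg a) D v - tau p (dg a) D 0 + eta p (dg a) D 0 * v)) := by
    have := measurable_tau (p := p) (by linarith) h
    fun_prop
  refine ((int_w2 h5 h6).const_mul K).mono' hm.aestronglyMeasurable ?_
  refine (ae_restrict_iff' measurableSet_Ioi).2 (Eventually.of_forall fun v hv => ?_)
  have hv0 : (0 : ℝ) < v := hv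
  have hw : 0 ≤ v ^ (3 - p) * (((1 + v) ^ 3)⁻¹ * (1 + 2 * v)⁻¹) := by positivity
  rw [norm_mul, Real.norm_eq_abs, abs_of_nonneg hw, Real.norm_eq_abs]
  calc _ ≤ v ^ (3 - p) * (((1 + v) ^ 3)⁻¹ * (1 + 2 * v)⁻¹) * (K * v ^ 2) :=
      mul_le_mul_of_nonneg_left (hb v hv0.le) hw
    _ = _ := by ring

end Pool.Agent.Lib_helper56.RP
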