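import Pool.Agent.Lib_helper52.KS.C
import Pool.Agent.Lib_helper30.MOD.Kl

/-!
# Second order remainder of `Tr X_+^p`, uniform
-/

set_option autoImplicit false

open scoped BigOperators ComplexOrder Kronecker MatrixOrder Topology
open MeasureTheory Set Matrix Filter

namespace Pool.Agent.Lib_helper56.RP

open Pool.Agent.RC Pool.Agent.RC.INE

variable {ι : Type} [Fintype ι] [DecidableEq ι]

theorem gp_lip {p : ℝ} (hp : 2 ≤ p) {x y R : ℝ} (hx : x ≤ R) (hR : 0 ≤ R) (hyx : y ≤ x) :
    gp p x - gp p y ≤ (p - 1) * R ^ (p - 2) * (x - y) := by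
  unfold gp
  have h1 := Pool.Agent.Lib_helper44.G34.rpow_tangent (p := p - 1) (x := max y 0) (y := max x 0)
    (by linarith) (le_max_right _ _) (le_max_right _ _)
  have h2 : (max x 0) ^ (p - 1 - 1) ≤ R ^ (p - 2) := by
    rw [show p - 1 - 1 = p - 2 by ring]
    exact Real.rpow_le_rpow (le_max_right _ _) (max_le hx hR) (by linarith)
  have h3 : 0 ≤ max x 0 - max y 0 := sub_nonneg.2 (max_le_max hyx le_rfl)
  have h4 : max x 0 - max y 0 ≤ x - y := by
    rcases le_total x 0 with h | h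
    · rw [max_eq_right h, max_eq_right (hyx.trans h)]; linarith
    · rw [max_eq_left h]
      linarith [le_max_left y 0]
  have h5 : (p - 1) * (max x 0) ^ (p - 1 - 1) * (max x 0 - max y 0) ≤
      (p - 1) * R ^ (p - 2) * (x - y) := by
    apply mul_le_mul _ h4 h3
    · exact mul_nonneg (by linarith) (Real.rpow_nonneg hR _)
    · exact mul_le_mul_of_nonneg_left h2 (by linarith)
  have h6 : (p - 1) * (max x 0) ^ (p - 1 - 1) * (max y 0 - max x 0) =
      -((p - 1) * (max x 0) ^ (p - 1 - 1) * (max x 0 - max y 0)) := by ring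
  linarith

theorem gp_mono {p : ℝ} (hp : 1 ≤ p) {x y : ℝ} (hyx : y ≤ x) : gp p y ≤ gp p x := by
  unfold gp
  exact Real.rpow_le_rpow (le_max_right _ _) (max_le_max hyx le_rfl) (by linarith)

theorem pp_upper {p : ℝ} (hp : 2 ≤ p) {x y R : ℝ} (hx : x ≤ R) (hy : y ≤ R) (hR : 0 ≤ R) :
    pp p x - pp p y - p * gp p y * (x - y) ≤ p * (p - 1) * R ^ (p - 2) * (x - y) ^ 2 := by
  have h1 := pp_tangent (p := p) (by linarith) y x
  have h2 : (gp p x - gp p y) * (x - y) ≤ (p - 1) * R ^ (p - 2) * (x - y) ^ 2 := by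
    rcases le_total y x with h | h
    · have := mul_le_mul_of_nonneg_right (gp_lip hp hx hR h) (sub_nonneg.2 h)
      calc _ ≤ (p - 1) * R ^ (p - 2) * (x - y) * (x - y) := this
        _ = _ := by ring
    · have := mul_le_mul_of_nonneg_right (gp_lip hp hy hR h) (sub_nonneg.2 h)
      calc _ = (gp p y - gp p x) * (y - x) := by ring
        _ ≤ (p - 1) * R ^ (p - 2) * (y - x) * (y - x) := this
        _ = _ := by ring
  have h3 : p * ((gp p x - gp p y) * (x - y)) ≤ p * ((p - 1) * R ^ (p - 2) * (x - y) ^ 2) :=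
    mul_le_mul_of_nonneg_left h2 (by linarith)
  nlinarith [h1, h3]

theorem eig_le {X : Matrix ι ι ℂ} (hX : X.IsHermitian) {R : ℝ}
    (h1 : ((R : ℂ) • (1 : Matrix ι ι ℂ) - X).PosSemidef) (i : ι) : hX.eigenvalues i ≤ R := by
  have h2 := h1.re_dotProduct_nonneg (WithLp.ofLp (hX.eigenvectorBasis i))
  have h3 : X *ᵥ (WithLp.ofLp (hX.eigenvectorBasis i)) =
      (hX.eigenvalues i : ℂ) • (WithLp.ofLp (hX.eigenvectorBasis i)) :=
    hX.mulVec_eigenvectorBasis i
  have h4 : star (WithLp.ofLp (hX.eigenvectorBasis i)) ⬝ᵥ (WithLp.ofLp (hX.eigenvectorBasis i)) =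
      (1 : ℂ) := by
    have h5 := hX.eigenvectorBasis.orthonormal.1 i
    have h6 : (inner ℂ (hX.eigenvectorBasis i) (hX.eigenvectorBasis i) : ℂ) = 1 := by
      rw [inner_self_eq_norm_sq_to_K, h5]; simp
    rw [← h6, EuclideanSpace.inner_eq_star_dotProduct, dotProduct_comm]
  rw [Matrix.sub_mulVec, Matrix.smul_mulVec, Matrix.one_mulVec, h3, dotProduct_sub,
    dotProduct_smul, dotProduct_smul, h4] at h2
  simp only [smul_eq_mul, mul_one, map_sub, RCLike.re_eq_complex_re, Complex.ofReal_re] at h2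
  linarith

theorem sum_sq_eq {N : Matrix ι ι ℂ} (hN : N.IsHermitian) :
    ((N * N).trace).re = ∑ i, ∑ j, ‖N i j‖ ^ 2 := by
  rw [Matrix.trace, Complex.re_sum]
  refine Finset.sum_congr rfl fun i _ => ?_
  rw [Matrix.diag_apply, Matrix.mul_apply, Complex.re_sum]
  refine Finset.sum_congr rfl fun j _ => ?_
  have : N j i = star (N i j) := (hN.apply j i).symm
  rw [this, Complex.star_def, Complex.mul_conj, Complex.ofReal_re, Complex.normSq_eq_norm_sq]

theorem lip {p : ℝ} (hp : 2 ≤ p) {X N : Matrix ι ι ℂ} (hX : X.IsHermitian) (hN : N.IsHermitian)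
    {R : ℝ} (hR : 0 ≤ R) (h1 : ((R : ℂ) • (1 : Matrix ι ι ℂ) - X).PosSemidef)
    (h2 : ((R : ℂ) • (1 : Matrix ι ι ℂ) - (X - N)).PosSemidef) :
    |trF (pp p) (X - N) - trF (pp p) X + p * ((cfc (gp p) X * N).trace).re| ≤
      p * (p - 1) * R ^ (p - 2) * ∑ i, ∑ j, ‖N i j‖ ^ 2 := by
  have hXN : (X - N).IsHermitian := hX.sub hN
  have low := klein_pp (p := p) (by linarith) hXN hX
  have e0 : X - N - X = -N := by abel
  rw [e0, Matrix.mul_neg, Matrix.trace_neg, Complex.neg_re] at low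
  set K : ℝ := p * (p - 1) * R ^ (p - 2) with hK
  have hup := Pool.Agent.Lib_helper44.G34.klein (f := fun x => K * x ^ 2 - pp p x)
    (g := fun x => 2 * K * x - p * gp p x) hXN hX (fun i j => by
      have := pp_upper hp (eig_le hXN h2 i) (eig_le hX h1 j) hR
      rw [← hK] at this
      nlinarith [this])
  rw [e0, Matrix.mul_neg, Matrix.trace_neg, Complex.neg_re] at hup
  have t1 : ∀ {M : Matrix ι ι ℂ} (hM : M.IsHermitian),
      Pool.Agent.Lib_helper44.G34.tf (fun x => K * x ^ 2 - pp p x) M =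
        K * ((M * M).trace).re - trF (pp p) M := by
    intro M hM
    have h3 := Pool.Agent.Lib_helper28.KS.trace_cfc_mul (fun x => x) hM M
    rw [Pool.Agent.Lib_helper44.G34.cfc_id' hM] at h3
    rw [← trF_eq_tf44 _ hM, h3]
    unfold trF
    rw [dif_pos hM, dif_pos hM, Finset.sum_sub_distrib, ← Finset.mul_sum]
    congr 2
    refine Finset.sum_congr rfl fun i _ => ?_
    rw [(Pool.Agent.Lib_helper28.KS.spec hM).2.2.2, diagonal_apply_eq, Complex.ofReal_re]
    ring
  have t2 : ((cfc (fun x => 2 * K * x - p * gp p x) X * N).trace).re =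
      2 * K * ((X * N).trace).re - p * ((cfc (gp p) X * N).trace).re := by
    have h3 := Pool.Agent.Lib_helper28.KS.trace_cfc_mul (fun x => x) hX N
    rw [Pool.Agent.Lib_helper44.G34.cfc_id' hX] at h3
    rw [Pool.Agent.Lib_helper28.KS.trace_cfc_mul _ hX N, h3,
      Pool.Agent.Lib_helper28.KS.trace_cfc_mul (gp p) hX N, Finset.mul_sum, Finset.mul_sum,
      ← Finset.sum_sub_distrib]
    refine Finset.sum_congr rfl fun i _ => ?_
    ring
  rw [t1 hX, t1 hXN, t2] at hup
  have t3 : (((X - N) * (X - N)).trace).re = ((X * X).trace).re - 2 * ((X * N).trace).re +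
      ((N * N).trace).re := by
    rw [Matrix.sub_mul, Matrix.mul_sub, Matrix.mul_sub, Matrix.trace_sub, Matrix.trace_sub,
      Matrix.trace_sub, Matrix.trace_mul_comm N X]
    simp only [Complex.sub_re]
    ring
  rw [t3] at hup
  rw [← sum_sq_eq hN, abs_le]
  have hn : 0 ≤ ((N * N).trace).re := by
    rw [sum_sq_eq hN]; positivity
  have hK0 : 0 ≤ K := mul_nonneg (mul_nonneg (by linarith) (by linarith)) (Real.rpow_nonneg hR _)
  have := mul_nonneg hK0 hn
  constructor <;> nlinarith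

end Pool.Agent.Lib_helper56.RP
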