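import Pool.Agent.Lib_helper56.RP.Lip

/-!
# Pinching of the first matrix in the eigenbasis of the second: second order remainders
-/

set_option autoImplicit false

open scoped BigOperators ComplexOrder Kronecker MatrixOrder Topology
open MeasureTheory Set Matrix Filter

namespace Pool.Agent.Lib_helper56.RP

open Pool.Agent.RC Pool.Agent.RC.INE

variable {ι : Type} [Fintype ι] [DecidableEq ι]

/-! ### the weight -/

theorem int_w2 {p : ℝ} (h5 : 5 < p) (h6 : p < 6) :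
    IntegrableOn (fun v : ℝ => v ^ (3 - p) * (((1 + v) ^ 3)⁻¹ * (1 + 2 * v)⁻¹) * v ^ 2)
      (Ioi 0) := by
  have hm : Measurable (fun v : ℝ => v ^ (3 - p) * (((1 + v) ^ 3)⁻¹ * (1 + 2 * v)⁻¹) * v ^ 2) := by
    fun_prop
  rw [← Ioc_union_Ioi_eq_Ioi (zero_le_one (α := ℝ))]
  refine IntegrableOn.union ?_ ?_
  · have h1 : IntegrableOn (fun v : ℝ => v ^ (5 - p)) (Ioc 0 1) :=
      (intervalIntegrable_iff_integrableOn_Ioc_of_le zero_le_one).1
        (intervalIntegral.intervalIntegrable_rpow' (by linarith))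
    refine h1.mono' hm.aestronglyMeasurable ?_
    refine (ae_restrict_iff' measurableSet_Ioc).2 (Eventually.of_forall fun v hv => ?_)
    have hv0 : 0 < v := hv.1
    have e : v ^ (5 - p) = v ^ (3 - p) * v ^ 2 := by
      rw [← Real.rpow_natCast v 2, ← Real.rpow_add hv0]; congr 1; push_cast; ring
    have h2 : ((1 + v) ^ 3)⁻¹ ≤ 1 := inv_le_one_of_one_le₀ (one_le_pow₀ (by linarith))
    have h3 : (1 + 2 * v)⁻¹ ≤ 1 := inv_le_one_of_one_le₀ (by linarith)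
    have h4 : 0 ≤ ((1 + v) ^ 3)⁻¹ := by positivity
    have h5 : 0 ≤ (1 + 2 * v)⁻¹ := by positivity
    have h6 : 0 ≤ v ^ (3 - p) := by positivity
    rw [Real.norm_eq_abs, abs_of_nonneg (by positivity), e]
    have h7 : ((1 + v) ^ 3)⁻¹ * (1 + 2 * v)⁻¹ ≤ 1 := mul_le_one₀ h2 h5 h3
    have h8 : v ^ (3 - p) * (((1 + v) ^ 3)⁻¹ * (1 + 2 * v)⁻¹) ≤ v ^ (3 - p) := by
      nlinarith
    exact mul_le_mul_of_nonneg_right h8 (by positivity)
  · have h1 : IntegrableOn (fun v : ℝ => v ^ (1 - p)) (Ioi 1) :=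
      integrableOn_Ioi_rpow_of_lt (by linarith) one_pos
    refine h1.mono' hm.aestronglyMeasurable ?_
    refine (ae_restrict_iff' measurableSet_Ioi).2 (Eventually.of_forall fun v hv => ?_)
    have hv1 : 1 < v := hv
    have hv0 : 0 < v := by linarith
    have e : v ^ (1 - p) = v ^ (3 - p) * (v ^ 3)⁻¹ * v⁻¹ * v ^ 2 := by
      have e1 : v ^ (1 - p) = v ^ (3 - p) * v ^ (-2 : ℝ) := by
        rw [← Real.rpow_add hv0]; congr 1; ring
      have e2 : v ^ (-2 : ℝ) = (v ^ 3)⁻¹ * v⁻¹ * v ^ 2 := by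
        rw [Real.rpow_neg hv0.le, show (2 : ℝ) = ((2 : ℕ) : ℝ) by norm_num, Real.rpow_natCast]
        field_simp
      rw [e1, e2]; ring
    have h2 : ((1 + v) ^ 3)⁻¹ ≤ (v ^ 3)⁻¹ :=
      inv_anti₀ (by positivity) (pow_le_pow_left₀ hv0.le (by linarith) 3)
    have h3 : (1 + 2 * v)⁻¹ ≤ v⁻¹ := inv_anti₀ hv0 (by linarith)
    have h4 : 0 ≤ ((1 + v) ^ 3)⁻¹ := by positivity
    have h5 : 0 ≤ (1 + 2 * v)⁻¹ := by positivity
    have h6 : 0 ≤ v ^ (3 - p) := by positivity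
    rw [Real.norm_eq_abs, abs_of_nonneg (by positivity), e]
    have h7 : ((1 + v) ^ 3)⁻¹ * (1 + 2 * v)⁻¹ ≤ (v ^ 3)⁻¹ * v⁻¹ :=
      mul_le_mul h2 h3 h5 (by positivity)
    have h8 : v ^ (3 - p) * (((1 + v) ^ 3)⁻¹ * (1 + 2 * v)⁻¹) ≤
        v ^ (3 - p) * ((v ^ 3)⁻¹ * v⁻¹) := mul_le_mul_of_nonneg_left h7 h6
    rw [← mul_assoc] at h8
    rw [← mul_assoc] at h8 ⊢
    exact mul_le_mul_of_nonneg_right h8 (by positivity)

/-! ### functions of an affine image -/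

theorem cont_sp (f : ℝ → ℝ) {D : Matrix ι ι ℂ} (hD : D.IsHermitian) :
    ContinuousOn f (spectrum ℝ D) := (Matrix.finite_real_spectrum (A := D)).continuousOn f

theorem herm_aff {D : Matrix ι ι ℂ} (hD : D.IsHermitian) (x y : ℝ) :
    ((x : ℂ) • D + (y : ℂ) • (1 : Matrix ι ι ℂ)).IsHermitian :=
  (herm_real_smul hD x).add (herm_real_smul Matrix.isHermitian_one y)

theorem cfc_aff (g : ℝ → ℝ) {D : Matrix ι ι ℂ} (hD : D.IsHermitian) (x y : ℝ) :
    cfc g ((x : ℂ) • D + (y : ℂ) • (1 : Matrix ι ι ℂ)) = cfc (fun s => g (x * s + y)) D := by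
  have h1 : (x : ℂ) • D + (y : ℂ) • (1 : Matrix ι ι ℂ) = cfc (fun s => x * s + y) D := by
    rw [Pool.Agent.Lib_helper44.G34.cfc_spec hD]
    have h2 := Pool.Agent.Lib_helper44.G34.cfc_spec hD (fun s => s)
    rw [Pool.Agent.Lib_helper44.G34.cfc_id' hD] at h2
    have h3 : (hD.eigenvectorUnitary : Matrix ι ι ℂ) * (hD.eigenvectorUnitary : Matrix ι ι ℂ)ᴴ = 1 :=
      (mem_unitaryGroup_iff).1 hD.eigenvectorUnitary.2
    have h4 : diagonal (fun i => ((x * hD.eigenvalues i + y : ℝ) : ℂ)) =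
        (x : ℂ) • diagonal (fun i => ((hD.eigenvalues i : ℝ) : ℂ)) + (y : ℂ) • (1 : Matrix ι ι ℂ) := by
      ext i j
      by_cases hij : i = j
      · subst hij; simp
      · simp [hij]
    rw [h4, Matrix.mul_add, Matrix.add_mul, Matrix.mul_smul, Matrix.smul_mul, ← h2,
      Matrix.mul_smul, Matrix.smul_mul, Matrix.mul_one, h3]
  rw [h1]
  exact (cfc_comp' g (fun s => x * s + y) D
    ((Matrix.finite_real_spectrum (A := D)).image _ |>.continuousOn g) (cont_sp _ hD)).symm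

/-- the diagonal of `A` in the eigenbasis of `D` -/
noncomputable def pin {D : Matrix ι ι ℂ} (hD : D.IsHermitian) (A : Matrix ι ι ℂ) (i : ι) : ℝ :=
  (((hD.eigenvectorUnitary : Matrix ι ι ℂ)ᴴ * A * (hD.eigenvectorUnitary : Matrix ι ι ℂ)) i i).re

theorem trF_aff (f : ℝ → ℝ) {D : Matrix ι ι ℂ} (hD : D.IsHermitian) (x y : ℝ) :
    trF f ((x : ℂ) • D + (y : ℂ) • (1 : Matrix ι ι ℂ)) = ∑ i, f (x * hD.eigenvalues i + y) := by
  rw [trF_eq_tf44 _ (herm_aff hD x y)]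
  unfold Pool.Agent.Lib_helper44.G34.tf
  rw [cfc_aff f hD]
  have := Pool.Agent.Lib_helper44.G34.tf_eq_sum (fun s => f (x * s + y)) hD
  unfold Pool.Agent.Lib_helper44.G34.tf at this
  exact this

theorem aff_first {p : ℝ} (hp : 2 ≤ p) {D A : Matrix ι ι ℂ} (hD : D.IsHermitian)
    (hA : A.IsHermitian) (x y v : ℝ) {R : ℝ} (hR : 0 ≤ R)
    (h1 : ((R : ℂ) • (1 : Matrix ι ι ℂ) -
      ((x : ℂ) • D + (y : ℂ) • (1 : Matrix ι ι ℂ))).PosSemidef)
    (h2 : ((R : ℂ) • (1 : Matrix ι ι ℂ) -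
      ((x : ℂ) • D + (y : ℂ) • (1 : Matrix ι ι ℂ) - (v : ℂ) • A)).PosSemidef) :
    |trF (pp p) ((x : ℂ) • D + (y : ℂ) • (1 : Matrix ι ι ℂ) - (v : ℂ) • A) -
      ∑ i, (pp p (x * hD.eigenvalues i + y) - p * v * (gp p (x * hD.eigenvalues i + y) *
        pin hD A i))| ≤ p * (p - 1) * R ^ (p - 2) * (v ^ 2 * ∑ i, ∑ j, ‖A i j‖ ^ 2) := by
  have h := lip hp (herm_aff hD x y) (herm_real_smul hA v) hR h1 h2
  rw [trF_aff (pp p) hD, cfc_aff (gp p) hD, Matrix.mul_smul, Matrix.trace_smul, smul_eq_mul,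
    Complex.re_ofReal_mul, Pool.Agent.Lib_helper28.KS.trace_cfc_mul _ hD A] at h
  have e1 : ∑ i, ∑ j, ‖((v : ℂ) • A) i j‖ ^ 2 = v ^ 2 * ∑ i, ∑ j, ‖A i j‖ ^ 2 := by
    simp only [Finset.mul_sum]
    refine Finset.sum_congr rfl fun i _ => Finset.sum_congr rfl fun j _ => ?_
    rw [Matrix.smul_apply, smul_eq_mul, norm_mul, Complex.norm_real, mul_pow, Real.norm_eq_abs,
      sq_abs]
  have e2 : ∑ i, (pp p (x * hD.eigenvalues i + y) - p * v * (gp p (x * hD.eigenvalues i + y) *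
        pin hD A i)) = (∑ i, pp p (x * hD.eigenvalues i + y)) -
      p * (v * ∑ i, gp p (x * hD.eigenvalues i + y) * pin hD A i) := by
    rw [Finset.sum_sub_distrib, Finset.mul_sum, Finset.mul_sum]
    congr 1
    refine Finset.sum_congr rfl fun i _ => ?_
    ring
  rw [e1] at h
  rw [e2]
  unfold pin
  have e3 : ∀ X Y Z : ℝ, X - (Y - Z) = X - Y + Z := fun X Y Z => by ring
  rw [e3]
  exact h

end Pool.Agent.Lib_helper56.RP
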