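import Pool.Agent.Lib_helper56.RP.Pin

/-!
# The pinched pair and the limit of the shifted difference
-/

set_option autoImplicit false

open scoped BigOperators ComplexOrder Kronecker MatrixOrder Topology
open MeasureTheory Set Matrix Filter

namespace Pool.Agent.Lib_helper56.RP

open Pool.Agent.RC Pool.Agent.RC.INE

variable {ι : Type} [Fintype ι] [DecidableEq ι]

theorem dg_shift (a : ι → ℝ) (t : ℝ) :
    (dg fun i => a i + t) = dg a + (t : ℂ) • (1 : Matrix ι ι ℂ) := by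
  unfold dg
  ext i j
  by_cases hij : i = j
  · subst hij; simp
  · simp [hij]

theorem herm_dg (a : ι → ℝ) : (dg a).IsHermitian := by
  unfold dg
  ext i j
  by_cases hij : i = j
  · subst hij; simp
  · rw [Matrix.conjTranspose_apply, Matrix.diagonal_apply_ne _ (Ne.symm hij),
      Matrix.diagonal_apply_ne _ hij, star_zero]

/-- the number `R` -/
theorem exists_R {a : ι → ℝ} (ha : ∀ i, 0 < a i) {D : Matrix ι ι ℂ} (h : IsPair (dg a) D) :
    ∃ R : ℝ, 0 ≤ R ∧ ((R : ℂ) • (1 : Matrix ι ι ℂ) - D).PosSemidef ∧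
      ((R : ℂ) • (1 : Matrix ι ι ℂ) + D).PosSemidef := by
  have hR : ((((∑ i, a i : ℝ)) : ℂ) • (1 : Matrix ι ι ℂ) - dg a).PosSemidef := by
    have e : (((∑ i, a i : ℝ)) : ℂ) • (1 : Matrix ι ι ℂ) - dg a =
        Matrix.diagonal fun i => (((∑ j, a j) - a i : ℝ) : ℂ) := by
      unfold dg
      ext i j
      by_cases hij : i = j
      · subst hij; simp
      · simp [hij]
    rw [e]
    refine Matrix.PosSemidef.diagonal fun i => ?_
    have : a i ≤ ∑ j, a j := Finset.single_le_sum (fun j _ => (ha j).le) (Finset.mem_univ i)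
    show (0 : ℂ) ≤ (((∑ j, a j) - a i : ℝ) : ℂ)
    exact_mod_cast sub_nonneg.2 this
  refine ⟨∑ i, a i, Finset.sum_nonneg fun i _ => (ha i).le, ?_, ?_⟩
  · have := hR.add h.sub
    rwa [sub_add_sub_cancel] at this
  · have := hR.add h.add
    rwa [show (((∑ i, a i : ℝ)) : ℂ) • (1 : Matrix ι ι ℂ) - dg a + (dg a + D) =
      (((∑ i, a i : ℝ)) : ℂ) • (1 : Matrix ι ι ℂ) + D by abel] at this

/-- scalar second order remainder -/
theorem sc_first {p : ℝ} (hp : 2 ≤ p) {s w R : ℝ} (hR : 0 ≤ R) (hs : s ≤ R) (hw : s - w ≤ R) :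
    |pp p (s - w) - (pp p s - p * (gp p s * w))| ≤ p * (p - 1) * R ^ (p - 2) * w ^ 2 := by
  have h1 := pp_upper hp hw hs hR
  have h2 := pp_tangent (p := p) (by linarith) (s - w) s
  have hK0 : 0 ≤ p * (p - 1) * R ^ (p - 2) * w ^ 2 :=
    mul_nonneg (mul_nonneg (mul_nonneg (by linarith) (by linarith)) (Real.rpow_nonneg hR _))
      (sq_nonneg _)
  have e1 : s - w - s = -w := by ring
  rw [e1] at h1 h2
  rw [abs_le]
  constructor
  · nlinarith
  · nlinarith

theorem pp_neg_eq {p : ℝ} (hp : 0 < p) {x : ℝ} (hx : x ≤ 0) : pp p x = 0 := by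
  unfold pp
  rw [max_eq_right hx, Real.zero_rpow hp.ne']

/-- `Tr f(x D + y - v A)` and its pinched version -/
theorem aff_pin {p : ℝ} (hp : 2 ≤ p) {D A : Matrix ι ι ℂ} (hD : D.IsHermitian)
    (hA : A.IsHermitian) (x y v : ℝ) {R : ℝ} (hR : 0 ≤ R)
    (h1 : ((R : ℂ) • (1 : Matrix ι ι ℂ) -
      ((x : ℂ) • D + (y : ℂ) • (1 : Matrix ι ι ℂ))).PosSemidef)
    (h2 : ((R : ℂ) • (1 : Matrix ι ι ℂ) -
      ((x : ℂ) • D + (y : ℂ) • (1 : Matrix ι ι ℂ) - (v : ℂ) • A)).PosSemidef)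
    (h3 : ∀ i, x * hD.eigenvalues i + y ≤ R) (h4 : ∀ i, x * hD.eigenvalues i + y -
      v * pin hD A i ≤ R) :
    |trF (pp p) ((x : ℂ) • D + (y : ℂ) • (1 : Matrix ι ι ℂ) - (v : ℂ) • A) -
      ∑ i, pp p (x * hD.eigenvalues i + y - v * pin hD A i)| ≤
      p * (p - 1) * R ^ (p - 2) * (∑ i, ∑ j, ‖A i j‖ ^ 2 + ∑ i, pin hD A i ^ 2) * v ^ 2 := by
  have k1 := aff_first hp hD hA x y v hR h1 h2
  have k2 : |∑ i, pp p (x * hD.eigenvalues i + y - v * pin hD A i) -
      ∑ i, (pp p (x * hD.eigenvalues i + y) - p * v * (gp p (x * hD.eigenvalues i + y) *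
        pin hD A i))| ≤ p * (p - 1) * R ^ (p - 2) * (v ^ 2 * ∑ i, pin hD A i ^ 2) := by
    rw [← Finset.sum_sub_distrib]
    refine (Finset.abs_sum_le_sum_abs _ _).trans ?_
    rw [Finset.mul_sum, Finset.mul_sum]
    refine Finset.sum_le_sum fun i _ => ?_
    have := sc_first hp hR (h3 i) (h4 i)
    have e1 : pp p (x * hD.eigenvalues i + y) - p * v * (gp p (x * hD.eigenvalues i + y) *
        pin hD A i) = pp p (x * hD.eigenvalues i + y) -
        p * (gp p (x * hD.eigenvalues i + y) * (v * pin hD A i)) := by ring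
    rw [e1]
    refine this.trans (le_of_eq ?_)
    ring
  have k3 := abs_sub_le (trF (pp p) ((x : ℂ) • D + (y : ℂ) • (1 : Matrix ι ι ℂ) - (v : ℂ) • A))
    (∑ i, (pp p (x * hD.eigenvalues i + y) - p * v * (gp p (x * hD.eigenvalues i + y) *
        pin hD A i))) (∑ i, pp p (x * hD.eigenvalues i + y - v * pin hD A i))
  rw [abs_sub_comm (∑ i, (pp p (x * hD.eigenvalues i + y) - p * v *
    (gp p (x * hD.eigenvalues i + y) * pin hD A i)))] at k3
  calc _ ≤ _ := k3
    _ ≤ _ := add_le_add k1 k2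
    _ = _ := by ring

/-! ### the two members of `tau` for `A + t` -/

theorem mem1 (A D : Matrix ι ι ℂ) (t v : ℝ) :
    D - (v : ℂ) • (A + (t : ℂ) • (1 : Matrix ι ι ℂ) - D) =
      ((1 + v : ℝ) : ℂ) • D + ((-(v * t) : ℝ) : ℂ) • (1 : Matrix ι ι ℂ) - (v : ℂ) • A := by
  push_cast
  module

theorem mem2 (A D : Matrix ι ι ℂ) (t v : ℝ) :
    -D - (v : ℂ) • (A + (t : ℂ) • (1 : Matrix ι ι ℂ) + D) =
      ((-(1 + v) : ℝ) : ℂ) • D + ((-(v * t) : ℝ) : ℂ) • (1 : Matrix ι ι ℂ) - (v : ℂ) • A := by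
  push_cast
  module

theorem trF_dg (f : ℝ → ℝ) (x : ι → ℝ) : trF f (dg x) = ∑ i, f (x i) := by
  have := TRF.trF_conj f (U := (1 : Matrix ι ι ℂ)) (by simp) x
  simpa [dg] using this

/-- `tau` of a diagonal pair -/
theorem tau_dg (p : ℝ) (c d : ι → ℝ) (t v : ℝ) :
    tau p (dg fun i => c i + t) (dg d) v =
      ∑ i, pp p ((1 + v) * d i + -(v * t) - v * c i) +
        ∑ i, pp p (-(1 + v) * d i + -(v * t) - v * c i) := by
  unfold tau
  have e1 : dg d - (v : ℂ) • ((dg fun i => c i + t) - dg d) =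
      dg fun i => (1 + v) * d i + -(v * t) - v * c i := by
    unfold dg
    ext i j
    by_cases hij : i = j
    · subst hij; simp; ring
    · simp [hij]
  have e2 : -dg d - (v : ℂ) • ((dg fun i => c i + t) + dg d) =
      dg fun i => -(1 + v) * d i + -(v * t) - v * c i := by
    unfold dg
    ext i j
    by_cases hij : i = j
    · subst hij; simp; ring
    · simp [hij]
  rw [e1, e2, trF_dg, trF_dg]

end Pool.Agent.Lib_helper56.RP
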