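import Pool.Agent.Lib_helper56.RP.Rr

/-!
# The limit of the shifted difference between a pair and the pinched pair
-/

set_option autoImplicit false

open scoped BigOperators ComplexOrder Kronecker MatrixOrder Topology
open MeasureTheory Set Matrix Filter

namespace Pool.Agent.Lib_helper56.RP

open Pool.Agent.RC Pool.Agent.RC.INE

variable {ι : Type} [Fintype ι] [DecidableEq ι]

theorem pin_pos {A D : Matrix ι ι ℂ} (hD : D.IsHermitian) (hA : A.PosDef) (i : ι) :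
    0 < pin hD A i := by
  have hU : IsUnit (hD.eigenvectorUnitary : Matrix ι ι ℂ) :=
    ⟨⟨_, (hD.eigenvectorUnitary : Matrix ι ι ℂ)ᴴ, (mem_unitaryGroup_iff).1 hD.eigenvectorUnitary.2,
      (mem_unitaryGroup_iff').1 hD.eigenvectorUnitary.2⟩, rfl⟩
  have h1 : ((hD.eigenvectorUnitary : Matrix ι ι ℂ)ᴴ * A *
      (hD.eigenvectorUnitary : Matrix ι ι ℂ)).PosDef := by
    refine hA.conjTranspose_mul_mul_same ?_
    rw [Matrix.mulVec_injective_iff_isUnit]
    exact hU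
  have := h1.diag_pos (i := i)
  unfold pin
  exact (Complex.lt_def.1 this).1

theorem pin_nonneg {A D : Matrix ι ι ℂ} (hD : D.IsHermitian) (hA : A.PosSemidef) (i : ι) :
    0 ≤ pin hD A i := by
  have h1 := hA.conjTranspose_mul_mul_same (hD.eigenvectorUnitary : Matrix ι ι ℂ)
  have := h1.diag_nonneg (i := i)
  unfold pin
  exact (Complex.le_def.1 this).1

theorem pin_add {A B D : Matrix ι ι ℂ} (hD : D.IsHermitian) (i : ι) :
    pin hD (A + B) i = pin hD A i + pin hD B i := by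
  unfold pin
  rw [Matrix.mul_add, Matrix.add_mul, Matrix.add_apply, Complex.add_re]

theorem pin_sub {A B D : Matrix ι ι ℂ} (hD : D.IsHermitian) (i : ι) :
    pin hD (A - B) i = pin hD A i - pin hD B i := by
  unfold pin
  rw [Matrix.mul_sub, Matrix.sub_mul, Matrix.sub_apply, Complex.sub_re]

theorem pin_self {D : Matrix ι ι ℂ} (hD : D.IsHermitian) (i : ι) :
    pin hD D i = hD.eigenvalues i := by
  unfold pin
  rw [(Pool.Agent.Lib_helper28.KS.spec hD).2.2.2, diagonal_apply_eq, Complex.ofReal_re]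

theorem abs_eig_le {a : ι → ℝ} {D : Matrix ι ι ℂ} (h : IsPair (dg a) D) (hD : D.IsHermitian)
    (i : ι) : |hD.eigenvalues i| ≤ pin hD (dg a) i := by
  have h1 := pin_nonneg hD h.sub i
  have h2 := pin_nonneg hD h.add i
  rw [pin_sub, pin_self] at h1
  rw [pin_add, pin_self] at h2
  rw [abs_le]
  constructor <;> linarith

theorem isPair_shift {a : ι → ℝ} {D : Matrix ι ι ℂ} (h : IsPair (dg a) D) {t : ℝ} (ht : 0 ≤ t) :
    IsPair (dg fun i => a i + t) D := by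
  rw [dg_shift]
  refine ⟨h.pos.add_posSemidef (psd_one' ht), ?_, ?_⟩
  · have := h.sub.add (psd_one' ht)
    rwa [show dg a - D + (t : ℂ) • (1 : Matrix ι ι ℂ) = dg a + (t : ℂ) • (1 : Matrix ι ι ℂ) - D by
      abel] at this
  · have := h.add.add (psd_one' ht)
    rwa [show dg a + D + (t : ℂ) • (1 : Matrix ι ι ℂ) = dg a + (t : ℂ) • (1 : Matrix ι ι ℂ) + D by
      abel] at this

theorem dg_psd {c : ι → ℝ} (hc : ∀ i, 0 ≤ c i) : (dg c).PosSemidef := by
  refine Matrix.PosSemidef.diagonal fun i => ?_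
  show (0 : ℂ) ≤ ((c i : ℝ) : ℂ)
  exact_mod_cast hc i

theorem dg_pos {c : ι → ℝ} (hc : ∀ i, 0 < c i) : (dg c).PosDef := by
  refine Matrix.PosDef.diagonal fun i => ?_
  show (0 : ℂ) < ((c i : ℝ) : ℂ)
  exact_mod_cast hc i

theorem dg_sub (c d : ι → ℝ) : dg c - dg d = dg fun i => c i - d i := by
  unfold dg
  ext i j
  by_cases hij : i = j
  · subst hij; simp
  · simp [hij]

theorem dg_add (c d : ι → ℝ) : dg c + dg d = dg fun i => c i + d i := by
  unfold dg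
  ext i j
  by_cases hij : i = j
  · subst hij; simp
  · simp [hij]

theorem isPair_dg {c d : ι → ℝ} (hc : ∀ i, 0 < c i) (hd : ∀ i, |d i| ≤ c i) :
    IsPair (dg c) (dg d) := by
  refine ⟨dg_pos hc, ?_, ?_⟩
  · rw [dg_sub]
    exact dg_psd fun i => by have := (abs_le.1 (hd i)).2; linarith
  · rw [dg_add]
    exact dg_psd fun i => by have := (abs_le.1 (hd i)).1; linarith

section

variable {a : ι → ℝ} {D : Matrix ι ι ℂ}

theorem psdR (h : IsPair (dg a) D) {R : ℝ} (hR : 0 ≤ R)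
    (hR1 : ((R : ℂ) • (1 : Matrix ι ι ℂ) - D).PosSemidef)
    (hR2 : ((R : ℂ) • (1 : Matrix ι ι ℂ) + D).PosSemidef) {x y S : ℝ}
    (hS : |x| * R + y ≤ S) :
    ((S : ℂ) • (1 : Matrix ι ι ℂ) - ((x : ℂ) • D + (y : ℂ) • (1 : Matrix ι ι ℂ))).PosSemidef := by
  rcases le_total 0 x with hx | hx
  · rw [abs_of_nonneg hx] at hS
    have h1 := (psd_smul' hR1 hx).add (psd_one' (ι := ι) (sub_nonneg.2 hS))
    have e : (x : ℂ) • ((R : ℂ) • (1 : Matrix ι ι ℂ) - D) +
        ((S - (x * R + y) : ℝ) : ℂ) • (1 : Matrix ι ι ℂ) =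
        (S : ℂ) • (1 : Matrix ι ι ℂ) - ((x : ℂ) • D + (y : ℂ) • (1 : Matrix ι ι ℂ)) := by
      push_cast
      module
    rwa [e] at h1
  · rw [abs_of_nonpos hx] at hS
    have h1 := (psd_smul' hR2 (neg_nonneg.2 hx)).add (psd_one' (ι := ι) (sub_nonneg.2 hS))
    have e : ((-x : ℝ) : ℂ) • ((R : ℂ) • (1 : Matrix ι ι ℂ) + D) +
        ((S - (-x * R + y) : ℝ) : ℂ) • (1 : Matrix ι ι ℂ) =
        (S : ℂ) • (1 : Matrix ι ι ℂ) - ((x : ℂ) • D + (y : ℂ) • (1 : Matrix ι ι ℂ)) := by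
      push_cast
      module
    rwa [e] at h1

theorem member_bound {p : ℝ} (hp : 2 ≤ p) (h : IsPair (dg a) D) (hD : D.IsHermitian) {R : ℝ}
    (hR : 0 ≤ R) (hR1 : ((R : ℂ) • (1 : Matrix ι ι ℂ) - D).PosSemidef)
    (hR2 : ((R : ℂ) • (1 : Matrix ι ι ℂ) + D).PosSemidef) {x y v : ℝ} (hx : |x| ≤ 2) (hy : y ≤ 0)
    (hv : 0 ≤ v) :
    |trF (pp p) ((x : ℂ) • D + (y : ℂ) • (1 : Matrix ι ι ℂ) - (v : ℂ) • dg a) -
      ∑ i, pp p (x * hD.eigenvalues i + y - v * pin hD (dg a) i)| ≤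
      p * (p - 1) * (2 * R) ^ (p - 2) * (∑ i, ∑ j, ‖(dg a) i j‖ ^ 2 +
        ∑ i, pin hD (dg a) i ^ 2) * v ^ 2 := by
  have hS : |x| * R + y ≤ 2 * R := by nlinarith
  have q1 := psdR h hR hR1 hR2 hS
  have hc : ∀ i, 0 ≤ pin hD (dg a) i := fun i => pin_nonneg hD h.pos.posSemidef i
  have q3 : ∀ i, x * hD.eigenvalues i + y ≤ 2 * R := by
    intro i
    have e1 := eig_le hD hR1 i
    have e2 : -R ≤ hD.eigenvalues i := by
      have := pin_nonneg hD hR2 i
      rw [pin_add, pin_self] at this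
      have e3 : pin hD ((R : ℂ) • (1 : Matrix ι ι ℂ)) i = R := by
        unfold pin
        rw [Matrix.mul_smul, Matrix.mul_one, Matrix.smul_mul,
          (Pool.Agent.Lib_helper28.KS.spec hD).1]
        simp
      rw [e3] at this
      linarith
    have e4 : |hD.eigenvalues i| ≤ R := abs_le.2 ⟨e2, e1⟩
    have e5 : x * hD.eigenvalues i ≤ |x| * R := by
      calc _ ≤ |x * hD.eigenvalues i| := le_abs_self _
        _ = |x| * |hD.eigenvalues i| := abs_mul _ _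
        _ ≤ _ := mul_le_mul_of_nonneg_left e4 (abs_nonneg _)
    linarith
  refine aff_pin hp hD h.hermA x y v (by linarith) q1 ?_ q3 ?_
  · have := q1.add (psd_smul' h.pos.posSemidef hv)
    rwa [show ((2 * R : ℝ) : ℂ) • (1 : Matrix ι ι ℂ) - ((x : ℂ) • D + (y : ℂ) • (1 : Matrix ι ι ℂ)) +
      (v : ℂ) • dg a = ((2 * R : ℝ) : ℂ) • (1 : Matrix ι ι ℂ) -
      ((x : ℂ) • D + (y : ℂ) • (1 : Matrix ι ι ℂ) - (v : ℂ) • dg a) by abel] at this
  · intro i
    have := mul_nonneg hv (hc i)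
    linarith [q3 i]

theorem pin_bound {p : ℝ} (hp : 2 ≤ p) (ha : ∀ i, 0 < a i) (h : IsPair (dg a) D)
    (hD : D.IsHermitian) : ∃ K : ℝ, 0 ≤ K ∧ ∀ t v : ℝ, 0 ≤ t → 0 ≤ v → v ≤ 1 →
      |tau p (dg fun i => a i + t) D v -
        tau p (dg fun i => pin hD (dg a) i + t) (dg hD.eigenvalues) v| ≤ K * v ^ 2 := by
  obtain ⟨R, hR, hR1, hR2⟩ := exists_R ha h
  refine ⟨2 * (p * (p - 1) * (2 * R) ^ (p - 2) * (∑ i, ∑ j, ‖(dg a) i j‖ ^ 2 +
        ∑ i, pin hD (dg a) i ^ 2)), ?_, fun t v ht hv hv1 => ?_⟩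
  · exact mul_nonneg two_pos.le (mul_nonneg (mul_nonneg (mul_nonneg (by linarith) (by linarith))
      (Real.rpow_nonneg (by linarith) _)) (by positivity))
  have hy : -(v * t) ≤ 0 := neg_nonpos.2 (mul_nonneg hv ht)
  have k1 := member_bound hp h hD hR hR1 hR2 (x := 1 + v) (y := -(v * t)) (v := v)
    (by rw [abs_of_nonneg (by linarith)]; linarith) hy hv
  have k2 := member_bound hp h hD hR hR1 hR2 (x := -(1 + v)) (y := -(v * t)) (v := v)
    (by rw [abs_neg, abs_of_nonneg (by linarith)]; linarith) hy hv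
  rw [tau_dg]
  unfold tau
  rw [dg_shift, mem1, mem2]
  rw [add_sub_add_comm]
  calc _ ≤ _ := abs_add_le _ _
    _ ≤ _ := add_le_add k1 k2
    _ = _ := by ring

end

end Pool.Agent.Lib_helper56.RP
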